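import Pool.Agent.H56.SignTable

set_option autoImplicit false

namespace Pool.Agent.Results.MP_6f8877_nt.PeriodTwo

open Finset PowerSeries
open Pool.Agent.H56.SignGen Pool.Agent.H56.SignSearch

theorem eq_pat (ε : ℕ → ℕ → ℤ)
    (hper : ∀ k j : ℕ, 1 ≤ k → 1 ≤ j → k * (j + 2) ≤ 48 → ε k (j + 2) = ε k j)
    (k : ℕ) (hk : 1 ≤ k) : ∀ j : ℕ, 1 ≤ j → k * j ≤ 48 →
      ε k j = pat (fun k => ε k 1) (fun k => ε k 2) k j := by
  intro j
  induction j using Nat.strong_induction_on with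
  | _ j ih =>
    intro hj hkj
    rcases Nat.lt_or_ge j 3 with h | h
    · have : j = 1 ∨ j = 2 := by omega
      rcases this with rfl | rfl <;> simp [pat]
    · obtain ⟨i, rfl⟩ : ∃ i, j = i + 2 := ⟨j - 2, by omega⟩
      rw [hper k i hk (by omega) hkj, ih i (by omega) (by omega) (by nlinarith)]
      unfold pat
      rw [Nat.add_mod_right]

/-- **No sign choice of period two works.**  If, for every `k`, the signs `ε k j` repeat with period
two in `j` (as far as `k j ≤ 48`), then one of the signed partition numbers `a(0), ..., a(48)` has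
absolute value at least two. -/
theorem result (ε : ℕ → ℕ → ℤ) (hε : ∀ n k, ε n k = 1 ∨ ε n k = -1)
    (hper : ∀ k j : ℕ, 1 ≤ k → 1 ≤ j → k * (j + 2) ≤ 48 → ε k (j + 2) = ε k j) :
    ∃ m : ℕ, m ≤ 48 ∧
      2 ≤ |∑ p : Nat.Partition m, ∏ i ∈ p.parts.toFinset, ε i (p.parts.count i)| := by
  have hdfs : dfs (251 ^ 49) evs 1 0 = true := by rw [MM_eq]; exact dfs_evs
  obtain ⟨m, hm, h⟩ := no_pattern (fun k => ε k 1) (fun k => ε k 2) evs chk_evs hdfs
    (fun k => hε k 1) (fun k => hε k 2)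
  refine ⟨m, hm, ?_⟩
  rw [sum_eq_coeff ε 48 m hm]
  have hco : coeff m (∏ k ∈ Icc 1 48, fac ε k)
      = coeff m (∏ k ∈ Icc 1 48, fac (pat (fun k => ε k 1) (fun k => ε k 2)) k) := by
    refine coeff_prod_congr _ _ _ m (fun k hk n hn => ?_) m le_rfl
    have hk' := mem_Icc.mp hk
    rw [coeff_fac, coeff_fac]
    by_cases hn0 : n = 0
    · rw [if_pos hn0, if_pos hn0]
    · rw [if_neg hn0, if_neg hn0]
      by_cases hd : k ∣ n
      · obtain ⟨c, rfl⟩ := hd
        have hc : c ≠ 0 := by rintro rfl; simp at hn0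
        rw [if_pos (Dvd.intro _ rfl), if_pos (Dvd.intro _ rfl),
          Nat.mul_div_cancel_left _ (by omega)]
        exact eq_pat ε hper k hk'.1 c (by omega) (by omega)
      · rw [if_neg hd, if_neg hd]
  rw [hco]
  exact h

end Pool.Agent.Results.MP_6f8877_nt.PeriodTwo
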